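import Mathlib
import Pool.Agent.NH64.DS.Final

set_option autoImplicit false

namespace Pool.Agent.Results.MP_e5d0a4_an.DilatedSumInterior

/-- For every `n ≥ 3` and every Borel set `A` of reals of Hausdorff dimension larger than
`2/n - 1/(7200 n²)` there are dilations `t_1 = 1, t_2, …, t_n` such that
`A + t_2 A + ⋯ + t_n A` has nonempty interior. -/
theorem result (n : ℕ) (hn : 3 ≤ n) (A : Set ℝ) (hA : MeasurableSet A)
    (hdim : ENNReal.ofReal ((2 : ℝ) / (n : ℝ) - 1 / (7200 * (n : ℝ) ^ 2)) < dimH A) :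
    ∃ t : Fin n → ℝ, (∀ i : Fin n, i.val = 0 → t i = 1) ∧
      (interior {x : ℝ | ∃ a : Fin n → ℝ, (∀ i, a i ∈ A) ∧ x = ∑ i, t i * a i}).Nonempty :=
  Pool.Agent.NH64.DS.Mn.main n hn A hA hdim

end Pool.Agent.Results.MP_e5d0a4_an.DilatedSumInterior
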